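import Pool.Agent.Helper19.HO.Defs
import Mathlib.LinearAlgebra.Transvection.Basic

open MeasureTheory Set Metric Filter Module
open scoped NNReal Topology RealInnerProductSpace ENNReal Real ContDiff Manifold

namespace Pool.Agent.Helper19.HO

variable {E : Type*} [NormedAddCommGroup E] [InnerProductSpace ℝ E] [FiniteDimensional ℝ E]

private theorem det_factor {A T : E →L[ℝ] E} {x w : E} {r : ℝ} (hx : ‖x‖ = 1) (hw : ‖w‖ = r)
    (hxw : ⟪x, w⟫ = 0) (hAx : A x = 0) (h1 : ∀ δ, ⟪x, A δ⟫ = 0) (h2 : ∀ δ, ⟪w, A δ⟫ = 0)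
    (hT : ∀ δ, T δ = A δ + ⟪x, δ⟫ • w - ⟪w, δ⟫ • x) :
    ∃ u : E, (1 + A.adjoint ∘L A) u = w ∧ ⟪w, u⟫ = ‖u‖ ^ 2 + ‖A u‖ ^ 2 ∧
      (1 + T.adjoint ∘L T).det = (1 + A.adjoint ∘L A).det * ((1 + r ^ 2) * (1 + ⟪w, u⟫)) := by
  set M : E →L[ℝ] E := 1 + A.adjoint ∘L A with hM
  have hMi : ∀ a b, ⟪M a, b⟫ = ⟪a, b⟫ + ⟪A a, A b⟫ := by
    intro a b
    simp [hM, inner_add_left, ContinuousLinearMap.adjoint_inner_left]
  have hMi' : ∀ a b, ⟪a, M b⟫ = ⟪a, b⟫ + ⟪A a, A b⟫ := by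
    intro a b
    simp [hM, inner_add_right, ContinuousLinearMap.adjoint_inner_right]
  have hinj : Function.Injective (M : E →ₗ[ℝ] E) := by
    rw [injective_iff_map_eq_zero]
    intro a ha
    have ha' : M a = 0 := ha
    have h := hMi a a
    rw [ha', inner_zero_left, real_inner_self_eq_norm_sq, real_inner_self_eq_norm_sq] at h
    have h3 : ‖a‖ ^ 2 = 0 := by nlinarith [sq_nonneg ‖a‖, sq_nonneg ‖A a‖]
    simpa using h3
  have hsurj : Function.Surjective (M : E →ₗ[ℝ] E) := LinearMap.surjective_of_injective hinj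
  obtain ⟨u, hu⟩ := hsurj w
  have hu' : M u = w := hu
  have hMx : M x = x := by simp [hM, hAx]
  have hxu : ⟪x, u⟫ = 0 := by
    have h := hMi' x u
    rw [hu', hxw, hAx, inner_zero_left, add_zero] at h
    exact h.symm
  refine ⟨u, hu', ?_, ?_⟩
  · have h := hMi u u
    rw [hu', real_inner_self_eq_norm_sq, real_inner_self_eq_norm_sq] at h
    exact h
  · let f : Dual ℝ E := r ^ 2 • (innerₛₗ ℝ x)
    let g : Dual ℝ E := innerₛₗ ℝ w
    have hcomp : ((1 + T.adjoint ∘L T : E →L[ℝ] E) : E →ₗ[ℝ] E) =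
        (M : E →ₗ[ℝ] E) ∘ₗ (LinearMap.transvection f x ∘ₗ LinearMap.transvection g u) := by
      ext δ
      have hr : (M : E →ₗ[ℝ] E) ((LinearMap.transvection f x ∘ₗ LinearMap.transvection g u) δ) =
          M δ + ⟪w, δ⟫ • w + (r ^ 2 * ⟪x, δ⟫) • x := by
        simp only [LinearMap.comp_apply, LinearMap.transvection.apply, ContinuousLinearMap.coe_coe]
        have hg : g δ = ⟪w, δ⟫ := rfl
        have hf : f (δ + g δ • u) = r ^ 2 * ⟪x, δ⟫ := by
          change r ^ 2 * ⟪x, δ + g δ • u⟫ = _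
          rw [inner_add_right, inner_smul_right, hxu, mul_zero, add_zero]
        rw [hf, hg, map_add, map_add, map_smul, map_smul, hu', hMx]
      rw [LinearMap.comp_apply, hr]
      apply ext_inner_left ℝ
      intro ε
      have hl : ⟪ε, ((1 + T.adjoint ∘L T : E →L[ℝ] E) : E →ₗ[ℝ] E) δ⟫ = ⟪ε, δ⟫ + ⟪T ε, T δ⟫ := by
        simp [inner_add_right, ContinuousLinearMap.adjoint_inner_right]
      rw [hl, inner_add_right, inner_add_right, hMi', inner_smul_right, inner_smul_right, hT, hT]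
      have hxx : ⟪x, x⟫ = 1 := by rw [real_inner_self_eq_norm_sq, hx]; norm_num
      have hww : ⟪w, w⟫ = r ^ 2 := by rw [real_inner_self_eq_norm_sq, hw]
      have hwx : ⟪w, x⟫ = 0 := by rw [real_inner_comm]; exact hxw
      have h1' : ∀ δ, ⟪A δ, x⟫ = 0 := fun δ => by rw [real_inner_comm]; exact h1 δ
      have h2' : ∀ δ, ⟪A δ, w⟫ = 0 := fun δ => by rw [real_inner_comm]; exact h2 δ
      simp only [inner_add_left, inner_add_right, inner_sub_left, inner_sub_right,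
        inner_smul_left, inner_smul_right, h1, h2, h1', h2', hxx, hww, hwx, hxw]
      rw [real_inner_comm ε w, real_inner_comm ε x]
      simp
      ring
    have hdet := congrArg LinearMap.det hcomp
    rw [LinearMap.det_comp, LinearMap.det_comp, LinearMap.transvection.det,
      LinearMap.transvection.det] at hdet
    have hfx : f x = r ^ 2 := by
      change r ^ 2 * ⟪x, x⟫ = _
      rw [real_inner_self_eq_norm_sq, hx]; ring
    have hgu : g u = ⟪w, u⟫ := rfl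
    rw [hfx, hgu] at hdet
    exact hdet

theorem sqrt_det_le {A T : E →L[ℝ] E} {x w : E} {r : ℝ} (hx : ‖x‖ = 1) (hw : ‖w‖ = r)
    (hxw : ⟪x, w⟫ = 0) (hAx : A x = 0) (h1 : ∀ δ, ⟪x, A δ⟫ = 0) (h2 : ∀ δ, ⟪w, A δ⟫ = 0)
    (hT : ∀ δ, T δ = A δ + ⟪x, δ⟫ • w - ⟪w, δ⟫ • x) :
    √((1 + T.adjoint ∘L T).det) ≤ (1 + r ^ 2) * √((1 + A.adjoint ∘L A).det) := by
  obtain ⟨u, hu, hwu, hdet⟩ := det_factor hx hw hxw hAx h1 h2 hT
  have hr0 : 0 ≤ r := by rw [← hw]; exact norm_nonneg _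
  have hcs : ⟪w, u⟫ ≤ ‖w‖ * ‖u‖ := real_inner_le_norm w u
  rw [hw] at hcs
  have hur : ‖u‖ ≤ r := by
    by_contra hcon
    push Not at hcon
    have hpos : 0 < ‖u‖ := lt_of_le_of_lt hr0 hcon
    nlinarith [sq_nonneg ‖A u‖]
  have hle : ⟪w, u⟫ ≤ r ^ 2 := by nlinarith
  have h0 : 0 ≤ ⟪w, u⟫ := by rw [hwu]; positivity
  rw [hdet]
  rcases le_or_gt 0 ((1 + A.adjoint ∘L A).det) with hM | hM
  · have h3 : (1 + r ^ 2) * √((1 + A.adjoint ∘L A).det) =
        √((1 + A.adjoint ∘L A).det * ((1 + r ^ 2) * (1 + r ^ 2))) := by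
      rw [Real.sqrt_mul hM, Real.sqrt_mul_self (by positivity)]
      ring
    rw [h3]
    apply Real.sqrt_le_sqrt
    apply mul_le_mul_of_nonneg_left _ hM
    apply mul_le_mul_of_nonneg_left _ (by positivity)
    linarith
  · rw [Real.sqrt_eq_zero_of_nonpos]
    · positivity
    · apply mul_nonpos_of_nonpos_of_nonneg hM.le
      positivity

theorem sqrt_det_eq {A T : E →L[ℝ] E} {x w : E} {r : ℝ} (hx : ‖x‖ = 1) (hw : ‖w‖ = r)
    (hxw : ⟪x, w⟫ = 0) (hAx : A x = 0) (h1 : ∀ δ, ⟪x, A δ⟫ = 0) (h2 : ∀ δ, ⟪w, A δ⟫ = 0)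
    (hT : ∀ δ, T δ = A δ + ⟪x, δ⟫ • w - ⟪w, δ⟫ • x) (hAw : A w = 0) :
    √((1 + T.adjoint ∘L T).det) = (1 + r ^ 2) * √((1 + A.adjoint ∘L A).det) := by
  obtain ⟨u, hu, hwu, hdet⟩ := det_factor hx hw hxw hAx h1 h2 hT
  have hwu' : ⟪w, u⟫ = r ^ 2 := by
    have h3 : ⟪w, (1 + A.adjoint ∘L A) u⟫ = ⟪w, u⟫ := by
      simp [inner_add_right, ContinuousLinearMap.adjoint_inner_right, hAw]
    rw [hu, real_inner_self_eq_norm_sq, hw] at h3
    exact h3.symm
  rw [hdet, hwu']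
  rcases le_or_gt 0 ((1 + A.adjoint ∘L A).det) with hM | hM
  · rw [Real.sqrt_mul hM, Real.sqrt_mul_self (by positivity)]
    ring
  · rw [Real.sqrt_eq_zero_of_nonpos, Real.sqrt_eq_zero_of_nonpos hM.le, mul_zero]
    apply mul_nonpos_of_nonpos_of_nonneg hM.le
    positivity

end Pool.Agent.Helper19.HO
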